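import Pool.Agent.MP_17db17_lc.H93.Alg
import Pool.Agent.MP_17db17_lc.H93.Clo
import Pool.Agent.MP_17db17_lc.H93.Comb
import Pool.Agent.MP_17db17_lc.H93.Core
import Pool.Agent.MP_17db17_lc.H93.Der
import Pool.Agent.MP_17db17_lc.H93.Det
import Pool.Agent.MP_17db17_lc.H93.Fil
import Pool.Agent.MP_17db17_lc.H93.Fin
import Pool.Agent.MP_17db17_lc.H93.Form
import Pool.Agent.MP_17db17_lc.H93.G1
import Pool.Agent.MP_17db17_lc.H93.G2
import Pool.Agent.MP_17db17_lc.H93.Gaps
import Pool.Agent.MP_17db17_lc.H93.Glo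
import Pool.Agent.MP_17db17_lc.H93.Glue
import Pool.Agent.MP_17db17_lc.H93.Gpt
import Pool.Agent.MP_17db17_lc.H93.Gup
import Pool.Agent.MP_17db17_lc.H93.Lam
import Pool.Agent.MP_17db17_lc.H93.Lat1
import Pool.Agent.MP_17db17_lc.H93.Lat2
import Pool.Agent.MP_17db17_lc.H93.Leaf
import Pool.Agent.MP_17db17_lc.H93.MainL
import Pool.Agent.MP_17db17_lc.H93.Mwc
import Pool.Agent.MP_17db17_lc.H93.Pack
import Pool.Agent.MP_17db17_lc.H93.PairS
import Pool.Agent.MP_17db17_lc.H93.Par
import Pool.Agent.MP_17db17_lc.H93.Red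
import Pool.Agent.MP_17db17_lc.H93.Sound
import Pool.Agent.MP_17db17_lc.H93.Spin
import Pool.Agent.MP_17db17_lc.H93.Strip
import Pool.Agent.MP_17db17_lc.H93.Sym
import Pool.Agent.MP_17db17_lc.H93.Tab
import Pool.Agent.MP_17db17_lc.H93.Uniq
import Pool.Agent.MP_17db17_lc.H93.VCompl
import Pool.Agent.MP_17db17_lc.H93.VSound
import Pool.Agent.MP_17db17_lc.H93.Win
import Pool.Agent.MP_17db17_lc.H93.Zor

set_option autoImplicit false

namespace Pool.Agent.Results.MP_17db17_lc.NPComplete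

open Pool.Agent.MP_17db17_lc.H93

/-- ACR₊ is NP-complete. -/
theorem result : N793a5b8e.IsCompleteFor N68a2faeb.NP ACRplus :=
  fin vpt (vsound (sound (twist comb spin)) (glue uniq) (pairS der detB))
    (vcompl der
      (mainL red (core red win strip gaps leaf (fil sym) lam (form sym lam ref) clo algS) lat1)
      lat2 (pack tab) zor tab)
    enumS (bridge (g1 par) (g2 par)) mwc gpt gup glo

end Pool.Agent.Results.MP_17db17_lc.NPComplete
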